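import Mathlib

/-!
# The 5 x 7 grid lemma

Two-colourings of the `5 × 7` integer grid without monochromatic axis-parallel `m × n` rectangles,
`m ∈ {1,2}`, `1 ≤ n ≤ 4`: the middle columns' first and last points have the same colour.
Rows are coded as natural numbers below `32`.
-/

namespace Rect448

/-- rows `r`, `s` have no two columns at distance `≤ 4` on which all four values agree -/
def ok4 (r s : ℕ) : Bool :=
  let e := (r ^^^ s) ^^^ 31
  let a := e &&& r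
  let b := e &&& (r ^^^ 31)
  (a &&& (a >>> 1)) == 0 && (b &&& (b >>> 1)) == 0 &&
  (a &&& (a >>> 2)) == 0 && (b &&& (b >>> 2)) == 0 &&
  (a &&& (a >>> 3)) == 0 && (b &&& (b >>> 3)) == 0 &&
  (a &&& (a >>> 4)) == 0 && (b &&& (b >>> 4)) == 0

/-- rows `r`, `s` have no two columns at distance `≤ 2` on which all four values agree -/
def ok2 (r s : ℕ) : Bool :=
  let e := (r ^^^ s) ^^^ 31
  let a := e &&& r
  let b := e &&& (r ^^^ 31)
  (a &&& (a >>> 1)) == 0 && (b &&& (b >>> 1)) == 0 &&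
  (a &&& (a >>> 2)) == 0 && (b &&& (b >>> 2)) == 0

/-- the exhaustive search -/
def check : Bool :=
  (List.range 32).all fun r0 =>
  (List.range 32).all fun r1 => !(ok4 r0 r1) ||
  (List.range 32).all fun r2 => !(ok4 r1 r2 && ok4 r0 r2) ||
  (List.range 32).all fun r3 => !(ok4 r2 r3 && ok4 r1 r3 && ok2 r0 r3) ||
  (List.range 32).all fun r4 => !(ok4 r3 r4 && ok4 r2 r4 && ok2 r1 r4 && ok2 r0 r4) ||
  (List.range 32).all fun r5 => !(ok4 r4 r5 && ok4 r3 r5 && ok2 r2 r5 && ok2 r1 r5) ||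
  (List.range 32).all fun r6 => !(ok4 r5 r6 && ok4 r4 r6 && ok2 r3 r6 && ok2 r2 r6) ||
    ((r0 >>> 2) % 2 == (r6 >>> 2) % 2)

theorem check_eq : check = true := by decide +kernel
/-- the code of a row of five colours -/
def row (a0 a1 a2 a3 a4 : Bool) : ℕ :=
  a0.toNat + 2 * a1.toNat + 4 * a2.toNat + 8 * a3.toNat + 16 * a4.toNat

/-- not all four equal -/
def nm (a b c d : Bool) : Bool := !(a == b && a == c && a == d)

theorem row_lt : ∀ a0 a1 a2 a3 a4 : Bool, row a0 a1 a2 a3 a4 < 32 := by decide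

theorem row_mid : ∀ a0 a1 a2 a3 a4 b0 b1 b2 b3 b4 : Bool,
    ((row a0 a1 a2 a3 a4 >>> 2) % 2 == (row b0 b1 b2 b3 b4 >>> 2) % 2) = true → a2 = b2 := by
  decide +kernel

theorem ok4_row : ∀ a0 a1 a2 a3 a4 b0 b1 b2 b3 b4 : Bool,
    nm a0 a1 b0 b1 = true → nm a1 a2 b1 b2 = true → nm a2 a3 b2 b3 = true → nm a3 a4 b3 b4 = true →
    nm a0 a2 b0 b2 = true → nm a1 a3 b1 b3 = true → nm a2 a4 b2 b4 = true →
    nm a0 a3 b0 b3 = true → nm a1 a4 b1 b4 = true → nm a0 a4 b0 b4 = true →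
    ok4 (row a0 a1 a2 a3 a4) (row b0 b1 b2 b3 b4) = true := by
  decide +kernel

theorem ok2_row : ∀ a0 a1 a2 a3 a4 b0 b1 b2 b3 b4 : Bool,
    nm a0 a1 b0 b1 = true → nm a1 a2 b1 b2 = true → nm a2 a3 b2 b3 = true → nm a3 a4 b3 b4 = true →
    nm a0 a2 b0 b2 = true → nm a1 a3 b1 b3 = true → nm a2 a4 b2 b4 = true →
    ok2 (row a0 a1 a2 a3 a4) (row b0 b1 b2 b3 b4) = true := by
  decide +kernel

/-- **the grid lemma**: a two-colouring `g` of `ℕ × ℕ` with no monochromatic axis-parallel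
rectangle with one side in `{1,2}` and the other side in `{1,2,3,4}` has `g 2 0 = g 2 6`. -/
theorem grid (g : ℕ → ℕ → Bool)
    (H : ∀ i j m n, (m = 1 ∨ m = 2) → 1 ≤ n → n ≤ 4 →
      nm (g i j) (g (i + m) j) (g i (j + n)) (g (i + m) (j + n)) = true)
    (H' : ∀ i j m n, (m = 1 ∨ m = 2) → 1 ≤ n → n ≤ 4 →
      nm (g i j) (g (i + n) j) (g i (j + m)) (g (i + n) (j + m)) = true) :
    g 2 0 = g 2 6 := by
  set R : ℕ → ℕ := fun j => row (g 0 j) (g 1 j) (g 2 j) (g 3 j) (g 4 j) with hR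
  have hlt : ∀ j, R j ∈ List.range 32 := fun j => List.mem_range.2 (row_lt _ _ _ _ _)
  have h4 : ∀ j d, (d = 1 ∨ d = 2) → ok4 (R j) (R (j + d)) = true := by
    intro j d hd
    exact ok4_row _ _ _ _ _ _ _ _ _ _ (H' 0 j d 1 hd (by omega) (by omega))
      (H' 1 j d 1 hd (by omega) (by omega)) (H' 2 j d 1 hd (by omega) (by omega))
      (H' 3 j d 1 hd (by omega) (by omega)) (H' 0 j d 2 hd (by omega) (by omega))
      (H' 1 j d 2 hd (by omega) (by omega)) (H' 2 j d 2 hd (by omega) (by omega))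
      (H' 0 j d 3 hd (by omega) (by omega)) (H' 1 j d 3 hd (by omega) (by omega))
      (H' 0 j d 4 hd (by omega) (by omega))
  have h2 : ∀ j d, 1 ≤ d → d ≤ 4 → ok2 (R j) (R (j + d)) = true := by
    intro j d h1 hd
    exact ok2_row _ _ _ _ _ _ _ _ _ _ (H 0 j 1 d (Or.inl rfl) h1 hd)
      (H 1 j 1 d (Or.inl rfl) h1 hd) (H 2 j 1 d (Or.inl rfl) h1 hd)
      (H 3 j 1 d (Or.inl rfl) h1 hd) (H 0 j 2 d (Or.inr rfl) h1 hd)
      (H 1 j 2 d (Or.inr rfl) h1 hd) (H 2 j 2 d (Or.inr rfl) h1 hd)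
  have a01 := h4 0 1 (Or.inl rfl)
  have a12 := h4 1 1 (Or.inl rfl)
  have a23 := h4 2 1 (Or.inl rfl)
  have a34 := h4 3 1 (Or.inl rfl)
  have a45 := h4 4 1 (Or.inl rfl)
  have a56 := h4 5 1 (Or.inl rfl)
  have a02 := h4 0 2 (Or.inr rfl)
  have a13 := h4 1 2 (Or.inr rfl)
  have a24 := h4 2 2 (Or.inr rfl)
  have a35 := h4 3 2 (Or.inr rfl)
  have a46 := h4 4 2 (Or.inr rfl)
  have b03 := h2 0 3 (by omega) (by omega)
  have b14 := h2 1 3 (by omega) (by omega)
  have b25 := h2 2 3 (by omega) (by omega)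
  have b36 := h2 3 3 (by omega) (by omega)
  have b04 := h2 0 4 (by omega) (by omega)
  have b15 := h2 1 4 (by omega) (by omega)
  have b26 := h2 2 4 (by omega) (by omega)
  simp only [Nat.reduceAdd] at a01 a12 a23 a34 a45 a56 a02 a13 a24 a35 a46 b03 b14 b25 b36 b04 b15 b26
  have c0 := List.all_eq_true.1 check_eq (R 0) (hlt 0)
  have c1 := List.all_eq_true.1 c0 (R 1) (hlt 1)
  rw [a01, Bool.not_true, Bool.false_or] at c1
  have c2 := List.all_eq_true.1 c1 (R 2) (hlt 2)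
  rw [a12, a02, Bool.and_true, Bool.not_true, Bool.false_or] at c2
  have c3 := List.all_eq_true.1 c2 (R 3) (hlt 3)
  rw [a23, a13, b03] at c3
  simp only [Bool.and_true, Bool.not_true, Bool.false_or] at c3
  have c4 := List.all_eq_true.1 c3 (R 4) (hlt 4)
  rw [a34, a24, b14, b04] at c4
  simp only [Bool.and_true, Bool.not_true, Bool.false_or] at c4
  have c5 := List.all_eq_true.1 c4 (R 5) (hlt 5)
  rw [a45, a35, b25, b15] at c5
  simp only [Bool.and_true, Bool.not_true, Bool.false_or] at c5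
  have c6 := List.all_eq_true.1 c5 (R 6) (hlt 6)
  rw [a56, a46, b36, b26] at c6
  simp only [Bool.and_true, Bool.not_true, Bool.false_or] at c6
  exact row_mid _ _ _ _ _ _ _ _ _ _ c6

end Rect448
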